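import Pool.Agent.Lib.MP_2733b3_lc.EEnc

set_option autoImplicit false

namespace Pool.Agent.Results.MP_2733b3_lc.OracleBQPisNEXP

open Pool.Agent.Lib.MP_2733b3_lc Pool.Agent.Shared.PolyTime

/-- There is an oracle relative to which NP is contained in P, NEXP (NP after exponential padding)
is contained in BQP, and NP with an oracle from BQP is contained in BQP. -/
theorem result : ∃ A : List Bool → Bool,
    (∀ L, InNP A L → InP A L) ∧
    (∀ L, InNP A L → ∀ p : Polynomial ℕ,
      InBQP A fun x => L (List.replicate (2 ^ p.eval x.length) true ++ false :: x)) ∧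
    ∀ B L, InBQP A B → InNP (fun s => cond (s.headD false) (A s.tail) (B s.tail)) L →
      InBQP A L := by
  obtain ⟨b, hb, h1, h2⟩ := EX.enc_q
  obtain ⟨A, a1, a2⟩ := EX.world hb
  refine ⟨A, fun L hL => ?_, fun L hL p => ?_, fun B L hB hL => ?_⟩
  · obtain ⟨U, t, hU⟩ := h1 A L hL
    exact ⟨fun a => EX.ansc (U a.1), fun a => a.2.headD false, 1,
      (EX.pt_ansc (by fun_prop)).isPolyTime, PT.isPolyTime (by fun_prop),
      fun x => by simp [ans, a1, hU]⟩
  · obtain ⟨U, t, hU⟩ := h1 A L hL
    have := a2 (fun a => EX.ansc (U (a.2 ++ false :: a.1)))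
      (fun x => List.replicate (p.eval x.length) true) (EX.pt_ansc (by fun_prop))
      (PT.replicate (Encode.pt_eval (by fun_prop) p)
        (PBe.eval (PB.length (f := fun x : List Bool => x) PT.id') p) (PT.const _))
    simpa only [a1, ← hU, List.length_replicate] using this
  · obtain ⟨V, r, t1, t2, hV⟩ := h2 A B L hB hL
    have := a2 (fun a => EX.ansc (V a)) r (EX.pt_ansc t1) t2
    simpa only [a1, ← hV] using this

end Pool.Agent.Results.MP_2733b3_lc.OracleBQPisNEXP
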