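import Pool.Agent.Lib.MP_2733b3_lc.PEnc
import Pool.Agent.Lib.MP_2733b3_lc.GLang

set_option autoImplicit false

namespace Pool.Agent.Results.MP_2733b3_lc.OracleEXPInfinitePH

open Pool.Agent.Lib.MP_2733b3_lc Pool.Agent.Shared.PolyTime

/-- There is an oracle relative to which the polynomial hierarchy is infinite, while NEXP (NP
after exponential padding) and NP with an oracle from BQP are contained in BQP. -/
theorem result : ∃ A : List Bool → Bool,
    (∀ k, 1 ≤ k → ∃ L, InPH A (k + 1) true L ∧ ¬ InPH A k true L) ∧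
    (∀ L, InNP A L → ∀ p : Polynomial ℕ,
      InBQP A fun x => L (List.replicate (2 ^ p.eval x.length) true ++ false :: x)) ∧
    ∀ B L, InBQP A B → InNP (fun s => cond (s.headD false) (A s.tail) (B s.tail)) L →
      InBQP A L := by
  obtain ⟨b, hb, h1, h2⟩ := EX.enc_q
  obtain ⟨A, a1, a3⟩ := EX.world2 hb
  refine ⟨A, fun k hk => ⟨LK A k, (lang_proof k).1 A, ?_⟩, fun L hL p => ?_,
    fun B L hB hL => ?_⟩
  · obtain ⟨j, rfl⟩ : ∃ j, k = j + 1 := ⟨k - 1, by omega⟩
    exact a1 j
  · obtain ⟨U, t, hU⟩ := h1 A L hL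
    have := a3 (fun a => U (a.2 ++ false :: a.1))
      (fun x => List.replicate (p.eval x.length) true) (by fun_prop)
      (PT.replicate (Encode.pt_eval (by fun_prop) p)
        (PBe.eval (PB.length (f := fun x : List Bool => x) PT.id') p) (PT.const _))
    simpa only [← hU, List.length_replicate] using this
  · obtain ⟨V, r, t1, t2, hV⟩ := h2 A B L hB hL
    simpa only [← hV] using a3 V r t1 t2

end Pool.Agent.Results.MP_2733b3_lc.OracleEXPInfinitePH
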