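import Pool.Agent.Lib.MP_2733b3_lc.GIter
import Pool.Agent.Lib.MP_2733b3_lc.GLang
import Pool.Agent.Lib.MP_2733b3_lc.Deriv
import Pool.Agent.Lib.MP_2733b3_lc.RT
import Pool.Agent.Lib.MP_2733b3_lc.Circ

set_option autoImplicit false

namespace Pool.Agent.Results.MP_2733b3_lc.OracleSigmaK

open Pool.Agent.Lib.MP_2733b3_lc Pool.Agent.Shared.PolyTime

/-- For every `k ≥ 1` there is an oracle relative to which Sigma_k is contained in BQP, while some
language in both Sigma_(k+1) and Pi_(k+1) is not in BQP. -/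
theorem result (k : ℕ) (hk : 1 ≤ k) : ∃ A : List Bool → Bool,
    (∀ L, InPH A k true L → InBQP A L) ∧
    ∃ L, InPH A (k + 1) true L ∧ InPH A (k + 1) false L ∧ ¬ InBQP A L := by
  obtain ⟨j, rfl⟩ : ∃ j, k = j + 1 := ⟨k - 1, by omega⟩
  obtain ⟨b, ⟨g, bd, e, g1, g2, g3⟩, henc⟩ := enc_proof circ_proof j
  obtain rfl : b = fun u => g u [] := funext e
  obtain ⟨l1, l2, A0, a1, a2⟩ := lang_proof (j + 1)
  obtain ⟨G, hG⟩ := (pt_countable (List Bool) (List Bool × List (ℕ × ℕ × List ℕ))).exists_eq_range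
    ⟨fun _ => ([], []), PT.const _⟩
  obtain ⟨m0, A, h1, h2, h3, h4⟩ := limit2 (rt_proof deriv_proof) phi_proof ⟨g1, g2, g3⟩ A0 a1 a2 G
    fun i => (hG ▸ Set.mem_range_self i : G i ∈ {f | PT f})
  refine ⟨A, henc m0 A h1 h2, LK A (j + 1), l1 A, l2 A h3, fun ⟨G', hG', h⟩ => ?_⟩
  obtain ⟨i, rfl⟩ : G' ∈ Set.range G := hG ▸ PT.ofIsPolyTime hG'
  obtain ⟨x, hx⟩ := h4 i
  exact hx (h x)

end Pool.Agent.Results.MP_2733b3_lc.OracleSigmaK
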